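import Pool.Agent.helper73.NH.Spec

/-!
Row nh:GVF (MP_a2a22c_al): Theorem G for groups.
-/

set_option autoImplicit false

namespace Pool.Agent.NH

open Matrix Module Pool.Agent.PR Pool.Agent.SHL

theorem GVF_first (hG0 : Pool.Agent.UG.G0_stmt) (hKOL : Pool.Agent.UG.KOL_stmt)
    (hUMAL : Pool.Agent.UG.MAL_stmt) (hEXJ : Pool.Agent.UG.EXJ_stmt) (n : ℕ) (hn : 3 ≤ n)
    (H A : Subgroup (Pool.Agent.PR.SLZ n)) (hZ : Pool.Agent.H48SL.ZDense H) (hA : A ≤ H)
    (hu : ∀ a ∈ A, IsNilpotent (stdM ℚ a - 1))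
    (hv : ∀ v : Fin n → ℚ, ∃ a ∈ A, a ≠ 1 ∧ stdM ℚ a *ᵥ v = v) : H.FiniteIndex := by
  have h1 : Pool.Agent.UG.UNil A := hKOL n A hu
  obtain ⟨𝔞, hnil, hlat, hlog⟩ := hUMAL n A h1
  refine hG0 n hn H hZ 𝔞 hnil ?_ ?_
  · intro X hX
    obtain ⟨k, hk, a, ha, e⟩ := hlat X hX
    exact ⟨k, hk, a, hA ha, e⟩
  · intro u
    obtain ⟨a, ha, ha1, hau⟩ := hv u
    obtain ⟨X, hX, e⟩ := hlog a ha
    refine ⟨X, hX, ?_, ?_⟩
    · rintro rfl
      apply ha1
      apply Pool.Agent.UG.qg_inj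
      rw [e, Pool.Agent.UG.qg_one, IsNilpotent.exp_zero]
    · apply (hEXJ n X (hnil.nil hX)).2.1
      rw [← e]
      exact hau

theorem GVF_std_transpose {n : ℕ} (a : Pool.Agent.PR.SLZ n) :
    stdM ℚ (Matrix.SpecialLinearGroup.transpose a) = (stdM ℚ a)ᵀ := rfl

theorem GVF_tt {n : ℕ} (a : Pool.Agent.PR.SLZ n) :
    Matrix.SpecialLinearGroup.transpose (Matrix.SpecialLinearGroup.transpose a) = a := by
  apply Subtype.ext
  show (a.1ᵀ)ᵀ = a.1
  exact Matrix.transpose_transpose _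

theorem GVF_one {n : ℕ} :
    Matrix.SpecialLinearGroup.transpose (1 : Pool.Agent.PR.SLZ n) = 1 := by
  apply Subtype.ext
  show ((1 : Matrix (Fin n) (Fin n) ℤ))ᵀ = 1
  exact Matrix.transpose_one

theorem GVF_mul {n : ℕ} (a b : Pool.Agent.PR.SLZ n) :
    Matrix.SpecialLinearGroup.transpose (a * b) =
      Matrix.SpecialLinearGroup.transpose b * Matrix.SpecialLinearGroup.transpose a := by
  apply Subtype.ext
  show (a.1 * b.1)ᵀ = b.1ᵀ * a.1ᵀ
  exact Matrix.transpose_mul _ _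

/-- the transposes of the elements of `A` -/
def GVF_tr {n : ℕ} (A : Subgroup (Pool.Agent.PR.SLZ n)) : Subgroup (Pool.Agent.PR.SLZ n) where
  carrier := {a | Matrix.SpecialLinearGroup.transpose a ∈ A}
  one_mem' := by
    show Matrix.SpecialLinearGroup.transpose (1 : Pool.Agent.PR.SLZ n) ∈ A
    rw [GVF_one]
    exact A.one_mem
  mul_mem' := by
    intro a b ha hb
    show Matrix.SpecialLinearGroup.transpose (a * b) ∈ A
    rw [GVF_mul]
    exact A.mul_mem hb ha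
  inv_mem' := by
    intro a ha
    show Matrix.SpecialLinearGroup.transpose a⁻¹ ∈ A
    have h1 : Matrix.SpecialLinearGroup.transpose a⁻¹ = (Matrix.SpecialLinearGroup.transpose a)⁻¹ := by
      apply eq_inv_of_mul_eq_one_left
      rw [← GVF_mul, mul_inv_cancel, GVF_one]
    rw [h1]
    exact A.inv_mem ha

theorem GVF (hG0 : Pool.Agent.UG.G0_stmt) (hKOL : Pool.Agent.UG.KOL_stmt)
    (hUMAL : Pool.Agent.UG.MAL_stmt) (hEXJ : Pool.Agent.UG.EXJ_stmt)
    (hTRP : Pool.Agent.UG.TRP_stmt) : GVF_stmt := by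
  intro n hn H A hZ hA hu h
  rcases h with h | h
  · exact GVF_first hG0 hKOL hUMAL hEXJ n hn H A hZ hA hu h
  · obtain ⟨H', hZ', hmem, hfin⟩ := hTRP n H hZ
    apply hfin
    refine GVF_first hG0 hKOL hUMAL hEXJ n hn H' (GVF_tr A) hZ' ?_ ?_ ?_
    · intro a ha
      exact (hmem a).2 (hA ha)
    · intro a ha
      obtain ⟨k, hk⟩ := hu _ ha
      refine ⟨k, ?_⟩
      have e : stdM ℚ a - 1 = (stdM ℚ (Matrix.SpecialLinearGroup.transpose a) - 1)ᵀ := by
        rw [GVF_std_transpose, Matrix.transpose_sub, Matrix.transpose_transpose, Matrix.transpose_one]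
      rw [e, ← Matrix.transpose_pow, hk, Matrix.transpose_zero]
    · intro v
      obtain ⟨b, hb, hb1, hbv⟩ := h v
      refine ⟨Matrix.SpecialLinearGroup.transpose b, ?_, ?_, ?_⟩
      · show Matrix.SpecialLinearGroup.transpose (Matrix.SpecialLinearGroup.transpose b) ∈ A
        rw [GVF_tt]
        exact hb
      · intro h1
        apply hb1
        rw [← GVF_tt b, h1, GVF_one]
      · rw [GVF_std_transpose, Matrix.mulVec_transpose]
        exact hbv

end Pool.Agent.NH
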